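import Pool.Agent.helper92.CV.B1

/-! # Project CV (MP_09b497_an), module B1p: positivity of the characteristic function -/

open scoped BigOperators

namespace Pool.Agent.helper28.OC

open Finset

theorem B1p_conj {p : ℕ} [NeZero p] (θ : ℝ) :
    B1_fac (0 : AddChar (ZMod p) ℂ) θ * B1_fac (0 : AddChar (ZMod p) ℂ) (-θ) =
      ((1 - 2 / p * (1 - 1 / p) * (1 - Real.cos θ) : ℝ) : ℂ) := by
  have h1 : B1_fac (0 : AddChar (ZMod p) ℂ) (-θ) =
      (starRingEnd ℂ) (B1_fac (0 : AddChar (ZMod p) ℂ) θ) := by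
    rw [B1_fac_eq, B1_fac_eq, if_pos rfl, map_add, map_div₀, map_sub, ← Complex.exp_conj,
      map_mul, Complex.conj_I, Complex.conj_ofReal, map_one, map_natCast]
    push_cast
    ring_nf
  rw [h1, Complex.mul_conj, Complex.normSq_eq_norm_sq, B1_normSq_triv]

/-- the level factor -/
noncomputable def B1p_G (p : ℕ) (θ : ℝ) : ℝ := 1 - 2 / p * (1 - 1 / p) * (1 - Real.cos θ)

theorem B1p_prod (p C n : ℕ) [Fact p.Prime] (ξ : ℝ) :
    𝔼 w : Om1 p C n, Complex.exp (Complex.I * ξ * A1 w) =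
      ((∏ k : Fin n, (B1p_G p (ξ * (1 / 2) ^ (k : ℕ))) ^ (C * ((k : ℕ) + 1)) : ℝ) : ℂ) := by
  have h0 := B1_factor (0 : AddChar (Om1 p C n) ℂ) ξ
  have h1 : ∀ w : Om1 p C n, (0 : AddChar (Om1 p C n) ℂ) w = 1 := fun w => by simp
  simp only [h1, one_mul] at h0
  rw [h0]
  have h2 : ∀ j : Kap C n, B1_res (0 : AddChar (Om1 p C n) ℂ) j = 0 := by
    intro j
    ext t
    rw [B1_res_apply]
    simp
  simp only [h2]
  rw [Fintype.prod_sigma]
  push_cast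
  apply Finset.prod_congr rfl
  intro k _
  rw [Fintype.prod_prod_type]
  have h3 : ∀ x : Fin (C * ((k : ℕ) + 1)), ∏ y : Bool,
      B1_fac (0 : AddChar (ZMod p) ℂ) (ξ * bc (⟨k, (x, y)⟩ : Kap C n)) =
        (B1p_G p (ξ * (1 / 2) ^ (k : ℕ)) : ℂ) := by
    intro x
    rw [Fintype.prod_bool]
    have e1 : ξ * bc (⟨k, (x, true)⟩ : Kap C n) = ξ * (1 / 2) ^ (k : ℕ) := by
      unfold bc; simp
    have e2 : ξ * bc (⟨k, (x, false)⟩ : Kap C n) = -(ξ * (1 / 2) ^ (k : ℕ)) := by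
      unfold bc; simp
    rw [e1, e2, B1p_conj]
    rfl
  rw [Finset.prod_congr rfl fun x _ => h3 x, Finset.prod_const, Finset.card_univ, Fintype.card_fin]

theorem B1p_coef {p : ℕ} (hp : 2 ≤ p) : 0 ≤ 2 / (p : ℝ) * (1 - 1 / p) ∧
    2 / (p : ℝ) * (1 - 1 / p) ≤ 1 / 2 := by
  have hp' : (2 : ℝ) ≤ p := by exact_mod_cast hp
  have hp0 : (0 : ℝ) < p := by linarith
  have h1 : 2 / (p : ℝ) * (1 - 1 / p) = 2 * (p - 1) / p ^ 2 := by field_simp
  rw [h1]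
  constructor
  · apply div_nonneg _ (by positivity)
    linarith
  · rw [div_le_div_iff₀ (by positivity) (by norm_num)]
    nlinarith [sq_nonneg ((p : ℝ) - 2)]

theorem B1p_G_nonneg {p : ℕ} (hp : 2 ≤ p) (θ : ℝ) : 0 ≤ B1p_G p θ := by
  obtain ⟨h1, h2⟩ := B1p_coef hp
  unfold B1p_G
  have h3 := Real.neg_one_le_cos θ
  have h4 := Real.cos_le_one θ
  nlinarith [mul_le_mul_of_nonneg_right h2 (show 0 ≤ 1 - Real.cos θ by linarith)]

theorem B1p_G_lower {p : ℕ} (hp : 2 ≤ p) {θ : ℝ} (hθ : θ ^ 2 ≤ 1) :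
    Real.exp (-(θ ^ 2 / 2)) ≤ B1p_G p θ := by
  obtain ⟨h1, h2⟩ := B1p_coef hp
  have h3 : 1 - θ ^ 2 / 2 ≤ Real.cos θ := Real.one_sub_sq_div_two_le_cos
  have h4 := Real.cos_le_one θ
  have h5 : 1 - θ ^ 2 / 4 ≤ B1p_G p θ := by
    unfold B1p_G
    nlinarith [mul_le_mul_of_nonneg_right h2 (show 0 ≤ 1 - Real.cos θ by linarith)]
  refine le_trans ?_ h5
  -- `exp(-x) ≤ 1 - x/2` for `0 ≤ x ≤ 1/2`
  set x := θ ^ 2 / 2 with hx
  have hx0 : 0 ≤ x := by positivity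
  have hx1 : x ≤ 1 / 2 := by rw [hx]; linarith
  have h6 : θ ^ 2 / 4 = x / 2 := by rw [hx]; ring
  rw [h6, Real.exp_neg]
  have h7 : x + 1 ≤ Real.exp x := Real.add_one_le_exp x
  rw [inv_le_iff_one_le_mul₀ (Real.exp_pos x)]
  nlinarith [mul_le_mul_of_nonneg_left h7 (show 0 ≤ 1 - x / 2 by linarith)]

theorem B1p_sum (n : ℕ) : ∑ k ∈ range n, ((k : ℝ) + 1) * (1 / 4) ^ k =
    16 / 9 - (12 * n + 16) / 9 * (1 / 4) ^ n := by
  induction n with
  | zero => simp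
  | succ n ih =>
    rw [Finset.sum_range_succ, ih, pow_succ]
    push_cast
    ring

/-- module B1' (independent): positivity -/
theorem B1_pos (p C n : ℕ) [Fact p.Prime] (ξ : ℝ) :
    (𝔼 w : Om1 p C n, Complex.exp (Complex.I * ξ * A1 w)).im = 0 ∧
    0 ≤ (𝔼 w : Om1 p C n, Complex.exp (Complex.I * ξ * A1 w)).re ∧
    (|ξ| ≤ 1 → Real.exp (-(C : ℝ)) ≤ (𝔼 w : Om1 p C n, Complex.exp (Complex.I * ξ * A1 w)).re) := by
  have hp : 2 ≤ p := (Fact.out : p.Prime).two_le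
  rw [B1p_prod]
  refine ⟨Complex.ofReal_im _, ?_, ?_⟩
  · rw [Complex.ofReal_re]
    exact Finset.prod_nonneg fun k _ => pow_nonneg (B1p_G_nonneg hp _) _
  · intro hξ
    rw [Complex.ofReal_re]
    have hξ2 : ξ ^ 2 ≤ 1 := by
      rw [← sq_abs]; exact pow_le_one₀ (abs_nonneg _) hξ
    have hterm : ∀ k : Fin n, Real.exp (-(((C : ℝ) / 2) * (((k : ℕ) + 1) * (1 / 4) ^ (k : ℕ)))) ≤
        (B1p_G p (ξ * (1 / 2) ^ (k : ℕ))) ^ (C * ((k : ℕ) + 1)) := by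
      intro k
      have h4 : (0 : ℝ) < (1 / 4) ^ (k : ℕ) := by positivity
      have h4' : ((1 : ℝ) / 4) ^ (k : ℕ) ≤ 1 := pow_le_one₀ (by norm_num) (by norm_num)
      have hsq : (ξ * (1 / 2) ^ (k : ℕ)) ^ 2 = ξ ^ 2 * (1 / 4) ^ (k : ℕ) := by
        rw [mul_pow, ← pow_mul, mul_comm (k : ℕ) 2, pow_mul]; norm_num
      have hle : (ξ * (1 / 2) ^ (k : ℕ)) ^ 2 ≤ 1 := by
        rw [hsq]
        nlinarith [sq_nonneg ξ]
      have h5 := pow_le_pow_left₀ (Real.exp_pos _).le (B1p_G_lower hp hle) (C * ((k : ℕ) + 1))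
      refine le_trans ?_ h5
      rw [← Real.exp_nat_mul]
      apply Real.exp_le_exp.2
      rw [hsq]
      push_cast
      have h6 : (0 : ℝ) ≤ (C : ℝ) * ((k : ℕ) + 1) * (1 / 4) ^ (k : ℕ) / 2 := by positivity
      nlinarith
    have hprod := Finset.prod_le_prod (s := (univ : Finset (Fin n)))
      (fun k _ => (Real.exp_pos _).le) (fun k _ => hterm k)
    refine le_trans ?_ hprod
    rw [← Real.exp_sum]
    apply Real.exp_le_exp.2
    rw [Finset.sum_neg_distrib, ← Finset.mul_sum,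
      Fin.sum_univ_eq_sum_range (fun k => ((k : ℝ) + 1) * (1 / 4) ^ k) n, B1p_sum]
    have h7 : (0 : ℝ) ≤ (12 * n + 16) / 9 * (1 / 4) ^ n := by positivity
    have h8 : (0 : ℝ) ≤ C := Nat.cast_nonneg C
    nlinarith [mul_nonneg h8 h7]

end Pool.Agent.helper28.OC
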