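import Pool.Agent.helper92.CV.B2a
import Pool.Agent.helper92.CV.B1p

/-! # Project CV (MP_09b497_an), modules B2b, B2c: smoothness and positivity of the density -/

open scoped BigOperators

namespace Pool.Agent.helper28.OC

open Finset MeasureTheory Filter

/-- the integrand without phase -/
noncomputable def B2b_K {p C n : ℕ} [NeZero p] (h : ℝ) (ψ : AddChar (Om1 p C n) ℂ) (ξ : ℝ) : ℂ :=
  (𝔼 w : Om1 p C n, ψ w * Complex.exp (Complex.I * ξ * A1 w)) *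
    (Real.exp (-(h ^ 2 * ξ ^ 2) / 2) : ℝ)

theorem B2b_mean_le {p C n : ℕ} [NeZero p] (ψ : AddChar (Om1 p C n) ℂ) (ξ : ℝ) :
    ‖𝔼 w : Om1 p C n, ψ w * Complex.exp (Complex.I * ξ * A1 w)‖ ≤ 1 := by
  rw [Fintype.expect_eq_sum_div_card, norm_div, Complex.norm_natCast]
  have hc : (0 : ℝ) < Fintype.card (Om1 p C n) := by exact_mod_cast Fintype.card_pos
  rw [div_le_one hc]
  refine (norm_sum_le _ _).trans ?_
  have h1 : ∀ w : Om1 p C n, ‖ψ w * Complex.exp (Complex.I * ξ * A1 w)‖ = 1 := by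
    intro w
    rw [norm_mul, AddChar.norm_apply, one_mul]
    have : Complex.I * ξ * (A1 w : ℂ) = ((ξ * A1 w : ℝ) : ℂ) * Complex.I := by push_cast; ring
    rw [this, Complex.norm_exp_ofReal_mul_I]
  rw [Finset.sum_congr rfl fun w _ => h1 w]
  simp

theorem B2b_cont {p C n : ℕ} [NeZero p] (h : ℝ) (ψ : AddChar (Om1 p C n) ℂ) :
    Continuous (B2b_K h ψ) := by
  unfold B2b_K
  simp only [Fintype.expect_eq_sum_div_card]
  fun_prop

/-- the Gaussian factor beats `|ξ|⁻⁴` far away -/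
theorem B2b_far {h : ℝ} (hh : 0 < h) : ∃ n₀ : ℕ, ∀ x : ℝ, 2 ^ n₀ ≤ x →
    Real.exp (-(h ^ 2 * x ^ 2) / 2) ≤ (x ^ 4)⁻¹ := by
  -- `exp y ≥ y^3 / 6`, with `y = h² x² / 2`
  obtain ⟨n₀, hn₀⟩ := pow_unbounded_of_one_lt (48 / h ^ 6 + 1) (show (1 : ℝ) < 2 by norm_num)
  refine ⟨n₀, fun x hx => ?_⟩
  have h6 : 0 < h ^ 6 := by positivity
  have hx1 : 48 / h ^ 6 + 1 < x := hn₀.trans_le hx
  have hx0 : 1 < x := by
    have : 0 < 48 / h ^ 6 := by positivity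
    linarith
  have hx2 : 48 / h ^ 6 ≤ x ^ 2 := by nlinarith
  have hy : 0 ≤ h ^ 2 * x ^ 2 / 2 := by positivity
  have h1 := Real.pow_div_factorial_le_exp (h ^ 2 * x ^ 2 / 2) hy 3
  have h2 : (h ^ 2 * x ^ 2 / 2) ^ 3 / (Nat.factorial 3 : ℝ) = h ^ 6 * x ^ 2 / 48 * x ^ 4 := by
    have : (Nat.factorial 3 : ℝ) = 6 := by norm_num [Nat.factorial]
    rw [this]; ring
  have h3 : 1 ≤ h ^ 6 * x ^ 2 / 48 := by
    rw [div_le_iff₀ h6] at hx2
    rw [le_div_iff₀ (by norm_num)]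
    linarith
  have h4 : x ^ 4 ≤ Real.exp (h ^ 2 * x ^ 2 / 2) := by
    rw [h2] at h1
    have : x ^ 4 ≤ h ^ 6 * x ^ 2 / 48 * x ^ 4 := by
      have h5 : 0 ≤ x ^ 4 := by positivity
      nlinarith
    linarith
  have h5 : -(h ^ 2 * x ^ 2) / 2 = -(h ^ 2 * x ^ 2 / 2) := by ring
  rw [h5, Real.exp_neg]
  exact inv_anti₀ (by positivity) h4

theorem B2b_bound {p C : ℕ} [NeZero p] (hC : CharBd p C) {h : ℝ} (hh : 0 < h) :
    ∃ n₀ : ℕ, ∀ n, n₀ ≤ n → ∀ (ψ : AddChar (Om1 p C n) ℂ) (ξ : ℝ),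
      ‖B2b_K h ψ ξ‖ ≤ 4 * ((1 + ξ ^ 2) ^ 2)⁻¹ := by
  obtain ⟨n₀, hn₀⟩ := B2b_far hh
  refine ⟨n₀, fun n hn ψ ξ => ?_⟩
  have hK : ‖B2b_K h ψ ξ‖ = ‖𝔼 w : Om1 p C n, ψ w * Complex.exp (Complex.I * ξ * A1 w)‖ *
      Real.exp (-(h ^ 2 * ξ ^ 2) / 2) := by
    unfold B2b_K
    rw [norm_mul, Complex.norm_real, Real.norm_of_nonneg (Real.exp_pos _).le]
  have hexp1 : Real.exp (-(h ^ 2 * ξ ^ 2) / 2) ≤ 1 := by
    rw [Real.exp_le_one_iff]
    have : 0 ≤ h ^ 2 * ξ ^ 2 := by positivity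
    linarith
  have hm := B2b_mean_le ψ ξ
  rw [hK]
  by_cases h1 : |ξ| < 1
  · have hξ : ξ ^ 2 < 1 := by
      rw [← sq_abs]
      nlinarith [abs_nonneg ξ]
    have h2 : (1 + ξ ^ 2) ^ 2 ≤ 4 := by nlinarith [sq_nonneg ξ]
    have h3 : 1 ≤ 4 * ((1 + ξ ^ 2) ^ 2)⁻¹ := by
      rw [← div_eq_mul_inv, le_div_iff₀ (by positivity)]
      linarith
    refine le_trans ?_ h3
    exact mul_le_one₀ hm (Real.exp_pos _).le hexp1
  · push Not at h1
    have hξ : 1 ≤ ξ ^ 2 := by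
      rw [← sq_abs]
      nlinarith
    have h4 : (|ξ| ^ 4)⁻¹ ≤ 4 * ((1 + ξ ^ 2) ^ 2)⁻¹ := by
      have e1 : |ξ| ^ 4 = (ξ ^ 2) ^ 2 := by
        rw [← sq_abs ξ]; ring
      rw [e1, ← div_eq_mul_inv, le_div_iff₀ (by positivity), inv_mul_le_iff₀ (by positivity)]
      nlinarith
    refine le_trans ?_ h4
    by_cases h2 : |ξ| < 2 ^ n
    · calc _ ≤ (|ξ| ^ 4)⁻¹ * 1 := mul_le_mul (hC n ψ ξ h1 h2) hexp1 (Real.exp_pos _).le (by positivity)
        _ = _ := mul_one _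
    · push Not at h2
      have h3 : (2 : ℝ) ^ n₀ ≤ |ξ| := (pow_le_pow_right₀ (by norm_num) hn).trans h2
      have h5 := hn₀ |ξ| h3
      rw [sq_abs] at h5
      calc _ ≤ 1 * (|ξ| ^ 4)⁻¹ := mul_le_mul hm h5 (Real.exp_pos _).le (by norm_num)
        _ = _ := one_mul _

/-- integrals against a phase bounded by `B (1 + ξ²)` -/
theorem B2b_int {φ K : ℝ → ℂ} {B : ℝ} (hB : 0 ≤ B)
    (hφb : ∀ ξ, ‖φ ξ‖ ≤ B * (1 + ξ ^ 2)) (hKb : ∀ ξ, ‖K ξ‖ ≤ 4 * ((1 + ξ ^ 2) ^ 2)⁻¹) :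
    ‖((1 / Real.sqrt (2 * Real.pi) : ℝ) : ℂ) * ∫ ξ : ℝ, φ ξ * K ξ‖ ≤ 6 * B := by
  have hpi := Real.pi_pos
  have hpi3 := Real.pi_gt_three
  have hpi4 := Real.pi_lt_d2
  have hb : ∀ ξ : ℝ, ‖φ ξ * K ξ‖ ≤ (4 * B) * (1 + ξ ^ 2)⁻¹ := by
    intro ξ
    rw [norm_mul]
    calc ‖φ ξ‖ * ‖K ξ‖ ≤ (B * (1 + ξ ^ 2)) * (4 * ((1 + ξ ^ 2) ^ 2)⁻¹) :=
          mul_le_mul (hφb ξ) (hKb ξ) (norm_nonneg _) (by positivity)
      _ = (4 * B) * (1 + ξ ^ 2)⁻¹ := by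
          have : (1 + ξ ^ 2) ≠ 0 := by positivity
          field_simp
  have h1 : ‖∫ ξ : ℝ, φ ξ * K ξ‖ ≤ ∫ ξ : ℝ, (4 * B) * (1 + ξ ^ 2)⁻¹ :=
    norm_integral_le_of_norm_le (integrable_inv_one_add_sq.const_mul _)
      (Filter.Eventually.of_forall hb)
  rw [integral_const_mul, integral_univ_inv_one_add_sq] at h1
  have hs : (0 : ℝ) < Real.sqrt (2 * Real.pi) := Real.sqrt_pos.2 (by positivity)
  have h2 : 4 * Real.pi ≤ 6 * Real.sqrt (2 * Real.pi) := by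
    have h3 : 2 * Real.pi / 3 ≤ Real.sqrt (2 * Real.pi) := by
      apply Real.le_sqrt_of_sq_le
      nlinarith
    linarith
  rw [norm_mul, Complex.norm_real, Real.norm_of_nonneg (by positivity), one_div,
    inv_mul_le_iff₀ hs]
  calc _ ≤ 4 * B * Real.pi := h1
    _ = (4 * Real.pi) * B := by ring
    _ ≤ (6 * Real.sqrt (2 * Real.pi)) * B := mul_le_mul_of_nonneg_right h2 hB
    _ = _ := by ring

theorem B2b_repr {p C n : ℕ} [NeZero p] {h : ℝ} (hh : 0 < h) (ψ : AddChar (Om1 p C n) ℂ) (t : ℝ) :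
    dd h ψ t = (1 / Real.sqrt (2 * Real.pi) : ℝ) *
      ∫ ξ : ℝ, Complex.exp (-(Complex.I * ξ * t)) * B2b_K h ψ ξ := by
  rw [B2_repr h hh]
  congr 1
  congr 1
  funext ξ
  unfold B2b_K
  rw [mul_assoc]

theorem B2b_Kint {p C n : ℕ} [NeZero p] {h : ℝ} (ψ : AddChar (Om1 p C n) ℂ)
    (hK : ∀ ξ, ‖B2b_K h ψ ξ‖ ≤ 4 * ((1 + ξ ^ 2) ^ 2)⁻¹) (t : ℝ) :
    Integrable (fun ξ : ℝ => Complex.exp (-(Complex.I * ξ * t)) * B2b_K h ψ ξ) := by
  have h1 : Continuous (fun ξ : ℝ => Complex.exp (-(Complex.I * ξ * t)) * B2b_K h ψ ξ) := by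
    have := B2b_cont h ψ
    fun_prop
  refine Integrable.mono' (integrable_inv_one_add_sq.const_mul 4) h1.aestronglyMeasurable
    (Filter.Eventually.of_forall fun ξ => ?_)
  have h2 : Complex.exp (-(Complex.I * ξ * t)) = Complex.exp (((-(ξ * t) : ℝ) : ℂ) * Complex.I) := by
    congr 1; push_cast; ring
  rw [norm_mul, h2, Complex.norm_exp_ofReal_mul_I, one_mul]
  refine (hK ξ).trans ?_
  have h3 : (1 : ℝ) ≤ 1 + ξ ^ 2 := by nlinarith [sq_nonneg ξ]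
  apply mul_le_mul_of_nonneg_left _ (by norm_num)
  apply inv_anti₀ (by positivity)
  nlinarith

/-- module B2b (needs B2_repr) -/
theorem B2_good {p C : ℕ} [NeZero p] (hC : CharBd p C) (h : ℝ) (hh : 0 < h) :
    ∃ n₀ : ℕ, ∀ n, n₀ ≤ n → Good p C n h := by
  obtain ⟨n₀, hn₀⟩ := B2b_bound hC hh
  refine ⟨n₀, fun n hn ψ t => ?_⟩
  have hK := hn₀ n hn ψ
  have hI := B2b_Kint ψ hK
  have hexp : ∀ ξ s : ℝ, Complex.exp (-(Complex.I * ξ * s)) =
      Complex.exp (((-(ξ * s) : ℝ) : ℂ) * Complex.I) := by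
    intro ξ s
    congr 1; push_cast; ring
  refine ⟨?_, ?_, ?_⟩
  · rw [B2b_repr hh]
    have := B2b_int (φ := fun ξ : ℝ => Complex.exp (-(Complex.I * ξ * t))) (K := B2b_K h ψ)
      (B := 1) (by norm_num) (fun ξ => by
        rw [hexp, Complex.norm_exp_ofReal_mul_I]
        nlinarith [sq_nonneg ξ]) hK
    simpa using this
  · rw [B2b_repr hh, B2b_repr hh, ← mul_sub, ← integral_sub (hI t) (hI 0)]
    have h1 : ∀ ξ : ℝ, Complex.exp (-(Complex.I * ξ * t)) * B2b_K h ψ ξ -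
        Complex.exp (-(Complex.I * ξ * (0 : ℝ))) * B2b_K h ψ ξ =
        (Complex.exp (-(Complex.I * ξ * t)) - 1) * B2b_K h ψ ξ := by
      intro ξ
      simp only [Complex.ofReal_zero, mul_zero, neg_zero, Complex.exp_zero]
      ring
    simp only [h1]
    apply B2b_int (abs_nonneg t) _ hK
    intro ξ
    rw [hexp]
    have h2 := Real.norm_exp_I_mul_ofReal_sub_one_le (x := -(ξ * t))
    rw [mul_comm Complex.I] at h2
    refine h2.trans ?_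
    rw [Real.norm_eq_abs, abs_neg, abs_mul]
    have h3 : |ξ| ≤ 1 + ξ ^ 2 := by
      rw [← sq_abs]
      nlinarith [sq_nonneg (|ξ| - 1)]
    nlinarith [mul_le_mul_of_nonneg_right h3 (abs_nonneg t)]
  · rw [B2b_repr hh, B2b_repr hh, B2b_repr hh]
    have e1 : ((1 / Real.sqrt (2 * Real.pi) : ℝ) : ℂ) *
          (∫ ξ : ℝ, Complex.exp (-(Complex.I * ξ * t)) * B2b_K h ψ ξ) +
        ((1 / Real.sqrt (2 * Real.pi) : ℝ) : ℂ) *
          (∫ ξ : ℝ, Complex.exp (-(Complex.I * ξ * (-t : ℝ))) * B2b_K h ψ ξ) -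
        2 * (((1 / Real.sqrt (2 * Real.pi) : ℝ) : ℂ) *
          (∫ ξ : ℝ, Complex.exp (-(Complex.I * ξ * (0 : ℝ))) * B2b_K h ψ ξ)) =
        ((1 / Real.sqrt (2 * Real.pi) : ℝ) : ℂ) *
          ∫ ξ : ℝ, (Complex.exp (-(Complex.I * ξ * t)) + Complex.exp (-(Complex.I * ξ * (-t : ℝ)))
            - 2) * B2b_K h ψ ξ := by
      have h1 : ∀ ξ : ℝ, (Complex.exp (-(Complex.I * ξ * t)) +
          Complex.exp (-(Complex.I * ξ * (-t : ℝ))) - 2) * B2b_K h ψ ξ =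
          (Complex.exp (-(Complex.I * ξ * t)) * B2b_K h ψ ξ +
            Complex.exp (-(Complex.I * ξ * (-t : ℝ))) * B2b_K h ψ ξ) -
            2 * (Complex.exp (-(Complex.I * ξ * (0 : ℝ))) * B2b_K h ψ ξ) := by
        intro ξ
        simp only [Complex.ofReal_zero, mul_zero, neg_zero, Complex.exp_zero]
        ring
      simp only [h1]
      have e2 := integral_sub ((hI t).add (hI (-t))) ((hI 0).const_mul 2)
      have e3 := integral_add (hI t) (hI (-t))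
      simp only [Pi.add_apply] at e2
      rw [e2, e3, integral_const_mul]
      ring
    rw [e1]
    apply B2b_int (sq_nonneg t) _ hK
    intro ξ
    have h2 : Complex.exp (-(Complex.I * ξ * t)) + Complex.exp (-(Complex.I * ξ * (-t : ℝ))) - 2 =
        ((2 * (Real.cos (ξ * t) - 1) : ℝ) : ℂ) := by
      rw [hexp, hexp, Complex.exp_mul_I, Complex.exp_mul_I, ← Complex.ofReal_cos,
        ← Complex.ofReal_sin, ← Complex.ofReal_cos, ← Complex.ofReal_sin, mul_neg, neg_neg,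
        Real.cos_neg, Real.sin_neg]
      push_cast
      ring
    rw [h2, Complex.norm_real, Real.norm_eq_abs, abs_mul, abs_of_nonpos (a := Real.cos (ξ * t) - 1)
      (by linarith [Real.cos_le_one (ξ * t)])]
    have h3 : 1 - (ξ * t) ^ 2 / 2 ≤ Real.cos (ξ * t) := Real.one_sub_sq_div_two_le_cos
    rw [abs_of_pos (by norm_num : (0 : ℝ) < 2)]
    nlinarith [sq_nonneg t]

/-- module B2c (needs B2_repr, B1_pos) -/
theorem B2_pos (p C n : ℕ) [Fact p.Prime] (h : ℝ) (hh : 0 < h) (hh1 : h ≤ 1) :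
    Real.exp (-(C : ℝ)) / 4 ≤ (dd h (0 : AddChar (Om1 p C n) ℂ) 0).re := by
  have hpi := Real.pi_pos
  have hpi4 := Real.pi_lt_d2
  have hs : (0 : ℝ) < Real.sqrt (2 * Real.pi) := Real.sqrt_pos.2 (by positivity)
  rw [B2b_repr hh]
  have h1 : ∀ ξ : ℝ, Complex.exp (-(Complex.I * ξ * (0 : ℝ))) *
      B2b_K h (0 : AddChar (Om1 p C n) ℂ) ξ =
      (((𝔼 w : Om1 p C n, Complex.exp (Complex.I * ξ * A1 w)).re *
        Real.exp (-(h ^ 2 * ξ ^ 2) / 2) : ℝ) : ℂ) := by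
    intro ξ
    unfold B2b_K
    have h2 : ∀ w : Om1 p C n, (0 : AddChar (Om1 p C n) ℂ) w = 1 := fun w => by simp
    simp only [Complex.ofReal_zero, mul_zero, neg_zero, Complex.exp_zero, one_mul, h2]
    have h3 : (𝔼 w : Om1 p C n, Complex.exp (Complex.I * ξ * A1 w)) =
        (((𝔼 w : Om1 p C n, Complex.exp (Complex.I * ξ * A1 w)).re : ℝ) : ℂ) := by
      apply Complex.ext
      · simp
      · rw [(B1_pos p C n ξ).1]; simp
    push_cast
    rw [← h3]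
  simp only [h1]
  rw [integral_complex_ofReal, ← Complex.ofReal_mul, Complex.ofReal_re]
  set f : ℝ → ℝ := fun ξ => (𝔼 w : Om1 p C n, Complex.exp (Complex.I * ξ * A1 w)).re *
    Real.exp (-(h ^ 2 * ξ ^ 2) / 2) with hf
  have hf0 : ∀ ξ, 0 ≤ f ξ := fun ξ => mul_nonneg (B1_pos p C n ξ).2.1 (Real.exp_pos _).le
  have hfc : Continuous f := by
    rw [hf]
    simp only [Fintype.expect_eq_sum_div_card]
    fun_prop
  have hfint : Integrable f := by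
    refine Integrable.mono' (integrable_exp_neg_mul_sq (b := h ^ 2 / 2) (by positivity))
      hfc.aestronglyMeasurable (Filter.Eventually.of_forall fun ξ => ?_)
    rw [Real.norm_of_nonneg (hf0 ξ)]
    have h2 : (𝔼 w : Om1 p C n, Complex.exp (Complex.I * ξ * A1 w)).re ≤ 1 := by
      have h3 := B2b_mean_le (0 : AddChar (Om1 p C n) ℂ) ξ
      have h4 : ∀ w : Om1 p C n, (0 : AddChar (Om1 p C n) ℂ) w = 1 := fun w => by simp
      simp only [h4, one_mul] at h3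
      exact (Complex.re_le_norm _).trans h3
    have h5 : -(h ^ 2 * ξ ^ 2) / 2 = -(h ^ 2 / 2) * ξ ^ 2 := by ring
    rw [hf]
    simp only
    rw [h5]
    exact mul_le_of_le_one_left (Real.exp_pos _).le h2
  have hlow : Real.exp (-(C : ℝ)) * Real.exp (-1 / 2) * 2 ≤ ∫ ξ : ℝ, f ξ := by
    have h2 : ∫ ξ in Set.Icc (-1 : ℝ) 1, f ξ ≤ ∫ ξ : ℝ, f ξ :=
      setIntegral_le_integral hfint (Filter.Eventually.of_forall hf0)
    refine le_trans ?_ h2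
    have h3 : ∫ ξ in Set.Icc (-1 : ℝ) 1, (Real.exp (-(C : ℝ)) * Real.exp (-1 / 2)) =
        Real.exp (-(C : ℝ)) * Real.exp (-1 / 2) * 2 := by
      rw [setIntegral_const]
      simp
      ring
    rw [← h3]
    apply setIntegral_mono_on (integrableOn_const (by simp)) hfint.integrableOn
      measurableSet_Icc
    intro ξ hξ
    have hξ1 : |ξ| ≤ 1 := abs_le.2 hξ
    have h4 := (B1_pos p C n ξ).2.2 hξ1
    apply mul_le_mul h4 _ (Real.exp_pos _).le (B1_pos p C n ξ).2.1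
    apply Real.exp_le_exp.2
    have h5 : ξ ^ 2 ≤ 1 := by
      rw [← sq_abs]; exact pow_le_one₀ (abs_nonneg _) hξ1
    have h6 : h ^ 2 ≤ 1 := pow_le_one₀ hh.le hh1
    nlinarith [sq_nonneg h, sq_nonneg ξ, mul_le_mul h6 h5 (sq_nonneg ξ) (by norm_num)]
  -- numerical part: `2 exp(-1/2) / sqrt(2π) ≥ 1/4`
  have hexp : (1 : ℝ) / 2 ≤ Real.exp (-1 / 2) := by
    have := Real.add_one_le_exp (-1 / 2 : ℝ)
    linarith
  have hsq : Real.sqrt (2 * Real.pi) ≤ 4 := by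
    rw [Real.sqrt_le_left (by norm_num)]
    nlinarith
  rw [one_div, le_inv_mul_iff₀ hs]
  have hC0 := Real.exp_pos (-(C : ℝ))
  calc Real.sqrt (2 * Real.pi) * (Real.exp (-(C : ℝ)) / 4)
      ≤ 4 * (Real.exp (-(C : ℝ)) / 4) := mul_le_mul_of_nonneg_right hsq (by positivity)
    _ = Real.exp (-(C : ℝ)) * (1 / 2) * 2 := by ring
    _ ≤ Real.exp (-(C : ℝ)) * Real.exp (-1 / 2) * 2 := by
        apply mul_le_mul_of_nonneg_right _ (by norm_num)
        exact mul_le_mul_of_nonneg_left hexp hC0.le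
    _ ≤ _ := hlow

end Pool.Agent.helper28.OC
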