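import Pool.Agent.helper28.OC.Base

/-! # Project CV (MP_09b497_an), module B1: character sums -/

open scoped BigOperators

namespace Pool.Agent.helper28.OC

open Finset

/-- one factor -/
noncomputable def B1_fac {p : ℕ} [NeZero p] (χ : AddChar (ZMod p) ℂ) (θ : ℝ) : ℂ :=
  𝔼 t : ZMod p, χ t * (if t = 0 then Complex.exp (Complex.I * θ) else 1)

/-- restriction of a character to one coordinate -/
noncomputable def B1_res {ι : Type*} [DecidableEq ι] {p : ℕ} (ψ : AddChar (ι → ZMod p) ℂ) (j : ι) :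
    AddChar (ZMod p) ℂ where
  toFun t := ψ (Pi.single j t)
  map_zero_eq_one' := by simp
  map_add_eq_mul' a b := by rw [Pi.single_add, AddChar.map_add_eq_mul]

theorem B1_res_apply {ι : Type*} [DecidableEq ι] {p : ℕ} (ψ : AddChar (ι → ZMod p) ℂ) (j : ι)
    (t : ZMod p) : B1_res ψ j t = ψ (Pi.single j t) := rfl

theorem B1_map_sum {ι A : Type*} [AddCommGroup A] (ψ : AddChar A ℂ) (s : Finset ι) (f : ι → A) :
    ψ (∑ i ∈ s, f i) = ∏ i ∈ s, ψ (f i) := by
  classical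
  induction s using Finset.induction_on with
  | empty => simp
  | insert a s ha ih => rw [Finset.sum_insert ha, Finset.prod_insert ha, AddChar.map_add_eq_mul, ih]

theorem B1_prod_res {ι : Type*} [DecidableEq ι] [Fintype ι] {p : ℕ} (ψ : AddChar (ι → ZMod p) ℂ)
    (w : ι → ZMod p) : ψ w = ∏ j, B1_res ψ j (w j) := by
  conv_lhs => rw [← Finset.univ_sum_single w]
  rw [B1_map_sum]
  rfl

/-- means of products over product spaces -/
theorem B1_expect_prod {ι κ : Type*} [DecidableEq ι] [Fintype ι] [Fintype κ] (g : ι → κ → ℂ) :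
    𝔼 w : ι → κ, ∏ j, g j (w j) = ∏ j, 𝔼 t, g j t := by
  simp only [Fintype.expect_eq_sum_div_card]
  rw [Finset.prod_div_distrib, Finset.prod_const, Finset.card_univ, Fintype.card_fun]
  congr 1
  · rw [Finset.prod_univ_sum, Fintype.piFinset_univ]
  · push_cast; rfl

theorem B1_factor {p C n : ℕ} [NeZero p] (ψ : AddChar (Om1 p C n) ℂ) (ξ : ℝ) :
    𝔼 w : Om1 p C n, ψ w * Complex.exp (Complex.I * ξ * A1 w) =
      ∏ j, B1_fac (B1_res ψ j) (ξ * bc j) := by
  classical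
  unfold B1_fac
  rw [← B1_expect_prod (fun j t => B1_res ψ j t *
    (if t = 0 then Complex.exp (Complex.I * ((ξ * bc j : ℝ) : ℂ)) else 1))]
  apply Finset.expect_congr rfl
  intro w _
  rw [Finset.prod_mul_distrib, ← B1_prod_res]
  congr 1
  have h1 : Complex.I * ξ * (A1 w : ℂ) =
      ∑ j, (if w j = 0 then Complex.I * ((ξ * bc j : ℝ) : ℂ) else 0) := by
    unfold A1
    push_cast
    rw [Finset.mul_sum]
    apply Finset.sum_congr rfl
    intro j _
    split_ifs <;> push_cast <;> ring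
  rw [h1, Complex.exp_sum]
  apply Finset.prod_congr rfl
  intro j _
  split_ifs <;> simp

theorem B1_fac_eq {p : ℕ} [NeZero p] (χ : AddChar (ZMod p) ℂ) (θ : ℝ) :
    B1_fac χ θ = (if χ = 0 then 1 else 0) + (Complex.exp (Complex.I * θ) - 1) / p := by
  classical
  have hp : (p : ℂ) ≠ 0 := by exact_mod_cast NeZero.ne p
  unfold B1_fac
  rw [Fintype.expect_eq_sum_div_card, ZMod.card]
  have h1 : ∑ t : ZMod p, χ t * (if t = 0 then Complex.exp (Complex.I * θ) else 1) =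
      ∑ t : ZMod p, χ t + (Complex.exp (Complex.I * θ) - 1) := by
    have h2 : ∀ t : ZMod p, χ t * (if t = 0 then Complex.exp (Complex.I * θ) else 1) =
        χ t + if t = 0 then (Complex.exp (Complex.I * θ) - 1) else 0 := by
      intro t
      split_ifs with h
      · subst h; simp
      · simp
    simp_rw [h2]
    rw [Finset.sum_add_distrib, Finset.sum_ite_eq' univ (0 : ZMod p)]
    simp
  rw [h1, AddChar.sum_eq_ite, ZMod.card, add_div]
  congr 1
  split_ifs
  · exact div_self hp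
  · simp

theorem B1_norm_exp (θ : ℝ) : ‖Complex.exp (Complex.I * θ)‖ = 1 := by
  rw [mul_comm]; exact Complex.norm_exp_ofReal_mul_I θ

theorem B1_norm_fac_le {p : ℕ} [NeZero p] (χ : AddChar (ZMod p) ℂ) (θ : ℝ) :
    ‖B1_fac χ θ‖ ≤ 1 := by
  have hp : (0 : ℝ) < p := by exact_mod_cast Nat.pos_of_ne_zero (NeZero.ne p)
  unfold B1_fac
  rw [Fintype.expect_eq_sum_div_card, ZMod.card, norm_div, Complex.norm_natCast,
    div_le_one hp]
  refine (norm_sum_le _ _).trans ?_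
  have h1 : ∀ t : ZMod p, ‖χ t * (if t = 0 then Complex.exp (Complex.I * θ) else 1)‖ = 1 := by
    intro t
    rw [norm_mul, AddChar.norm_apply]
    split_ifs
    · rw [B1_norm_exp]; norm_num
    · simp
  rw [Finset.sum_congr rfl fun t _ => h1 t]
  simp

/-- the norm of a factor for the trivial character -/
theorem B1_normSq_triv {p : ℕ} [NeZero p] (θ : ℝ) :
    ‖B1_fac (0 : AddChar (ZMod p) ℂ) θ‖ ^ 2 = 1 - 2 / p * (1 - 1 / p) * (1 - Real.cos θ) := by
  have hp : (p : ℝ) ≠ 0 := by exact_mod_cast NeZero.ne p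
  rw [B1_fac_eq, if_pos rfl, ← Complex.normSq_eq_norm_sq, mul_comm Complex.I,
    Complex.exp_mul_I, ← Complex.ofReal_cos, ← Complex.ofReal_sin]
  have h1 : (1 : ℂ) + ((Real.cos θ : ℂ) + (Real.sin θ : ℂ) * Complex.I - 1) / p =
      ((1 + (Real.cos θ - 1) / p : ℝ) : ℂ) + ((Real.sin θ / p : ℝ) : ℂ) * Complex.I := by
    push_cast; ring
  rw [h1, Complex.normSq_add_mul_I]
  field_simp
  nlinarith [Real.sin_sq_add_cos_sq θ]

theorem B1_normSq_nontriv {p : ℕ} [NeZero p] (χ : AddChar (ZMod p) ℂ) (hχ : χ ≠ 0) (θ : ℝ) :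
    ‖B1_fac χ θ‖ ^ 2 = 2 * (1 - Real.cos θ) / p ^ 2 := by
  have hp : (p : ℝ) ≠ 0 := by exact_mod_cast NeZero.ne p
  rw [B1_fac_eq, if_neg hχ, ← Complex.normSq_eq_norm_sq, mul_comm Complex.I,
    Complex.exp_mul_I, ← Complex.ofReal_cos, ← Complex.ofReal_sin]
  have h1 : (0 : ℂ) + ((Real.cos θ : ℂ) + (Real.sin θ : ℂ) * Complex.I - 1) / p =
      (((Real.cos θ - 1) / p : ℝ) : ℂ) + ((Real.sin θ / p : ℝ) : ℂ) * Complex.I := by
    push_cast; ring
  rw [h1, Complex.normSq_add_mul_I]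
  field_simp
  nlinarith [Real.sin_sq_add_cos_sq θ]

theorem B1_cos_bounds {θ : ℝ} (h1 : 1 ≤ |θ|) (h2 : |θ| ≤ 2) :
    Real.cos 2 ≤ Real.cos θ ∧ Real.cos θ ≤ Real.cos 1 := by
  have hpi : (3 : ℝ) < Real.pi := Real.pi_gt_three
  rw [← Real.cos_abs θ]
  constructor
  · exact Real.cos_le_cos_of_nonneg_of_le_pi (abs_nonneg _) (by linarith) h2
  · exact Real.cos_le_cos_of_nonneg_of_le_pi (by norm_num) (by linarith) h1

/-- uniform bound of the factors -/
theorem B1_rho (p : ℕ) [Fact p.Prime] : ∃ r : ℝ, 0 ≤ r ∧ r < 1 ∧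
    ∀ (χ : AddChar (ZMod p) ℂ) (θ : ℝ), 1 ≤ |θ| → |θ| ≤ 2 → ‖B1_fac χ θ‖ ^ 2 ≤ r := by
  have hp2 : 2 ≤ p := (Fact.out : p.Prime).two_le
  have hp : (2 : ℝ) ≤ p := by exact_mod_cast hp2
  have hp0 : (0 : ℝ) < p := by linarith
  have hpi : (3 : ℝ) < Real.pi := Real.pi_gt_three
  have hc1 : Real.cos 1 < 1 := by
    have := Real.cos_lt_cos_of_nonneg_of_le_pi (x := 0) (y := 1) le_rfl (by linarith) (by norm_num)
    rwa [Real.cos_zero] at this
  have hc2 : -1 < Real.cos 2 := by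
    have := Real.cos_lt_cos_of_nonneg_of_le_pi (x := 2) (y := Real.pi) (by norm_num) le_rfl
      (by linarith)
    rwa [Real.cos_pi] at this
  have hc2' : Real.cos 2 ≤ 1 := Real.cos_le_one 2
  have hpp : 0 < 1 - 1 / (p : ℝ) := by
    have : 1 / (p : ℝ) ≤ 1 / 2 := one_div_le_one_div_of_le (by norm_num) hp
    linarith
  refine ⟨max ((1 - Real.cos 2) / 2) (1 - 2 / p * (1 - 1 / p) * (1 - Real.cos 1)), ?_, ?_, ?_⟩
  · exact le_max_of_le_left (by linarith)
  · apply max_lt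
    · linarith
    · have : 0 < 2 / (p : ℝ) * (1 - 1 / p) * (1 - Real.cos 1) :=
        mul_pos (mul_pos (by positivity) hpp) (by linarith)
      linarith
  · intro χ θ h1 h2
    obtain ⟨g1, g2⟩ := B1_cos_bounds h1 h2
    by_cases hχ : χ = 0
    · subst hχ
      rw [B1_normSq_triv]
      apply le_max_of_le_right
      have : 2 / (p : ℝ) * (1 - 1 / p) * (1 - Real.cos 1) ≤
          2 / (p : ℝ) * (1 - 1 / p) * (1 - Real.cos θ) :=
        mul_le_mul_of_nonneg_left (by linarith) (by positivity)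
      linarith
    · rw [B1_normSq_nontriv χ hχ]
      apply le_max_of_le_left
      rw [div_le_div_iff₀ (by positivity) (by norm_num)]
      have h4 : (4 : ℝ) ≤ p ^ 2 := by nlinarith
      have h5 : 0 ≤ 1 - Real.cos 2 := by linarith
      nlinarith [mul_le_mul_of_nonneg_left h4 h5]

theorem B1_abs_bc {C n : ℕ} (j : Kap C n) : |bc j| = (1 / 2) ^ (j.1 : ℕ) := by
  unfold bc
  rw [abs_mul]
  have h1 : |(if j.2.2 then (1 : ℝ) else -1)| = 1 := by split_ifs <;> simp
  rw [h1, one_mul, abs_of_nonneg (by positivity)]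

/-- module B1 (independent): the characters of `Om1`: factorisation gives the estimate (B1) -/
theorem B1_charBd (p : ℕ) [Fact p.Prime] : ∃ C : ℕ, 0 < C ∧ CharBd p C := by
  obtain ⟨r, hr0, hr1, hr⟩ := B1_rho p
  obtain ⟨C, hC⟩ := exists_pow_lt_of_lt_one (show (0 : ℝ) < 1 / 16 by norm_num) hr1
  have hC0 : 0 < C := by
    rcases Nat.eq_zero_or_pos C with h | h
    · subst h; norm_num at hC
    · exact h
  refine ⟨C, hC0, ?_⟩
  intro n ψ ξ h1 h2
  -- the level of `ξ`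
  obtain ⟨k, hk1, hk2⟩ : ∃ k : ℕ, 2 ^ k ≤ |ξ| ∧ |ξ| < 2 ^ (k + 1) :=
    exists_nat_pow_near h1 (by norm_num)
  have hkn : k < n := by
    by_contra h
    push Not at h
    have : (2 : ℝ) ^ n ≤ 2 ^ k := pow_le_pow_right₀ (by norm_num) h
    linarith
  rw [B1_factor, norm_prod]
  set ρ := Real.sqrt r with hρ
  have hρ0 : 0 ≤ ρ := Real.sqrt_nonneg _
  have hle : ∀ j : Kap C n, ‖B1_fac (B1_res ψ j) (ξ * bc j)‖ ≤ if j.1 = ⟨k, hkn⟩ then ρ else 1 := by
    intro j
    split_ifs with hj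
    · have hb : |ξ * bc j| = |ξ| / 2 ^ k := by
        rw [abs_mul, B1_abs_bc, hj]
        simp only [one_div, inv_pow]
        rfl
      have h2k : (0 : ℝ) < 2 ^ k := by positivity
      apply Real.le_sqrt_of_sq_le
      apply hr
      · rw [hb, le_div_iff₀ h2k, one_mul]; exact hk1
      · rw [hb, div_le_iff₀ h2k]
        rw [pow_succ] at hk2
        linarith
    · exact B1_norm_fac_le _ _
  refine (Finset.prod_le_prod (fun j _ => norm_nonneg _) (fun j _ => hle j)).trans ?_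
  have h3 : ∏ j : Kap C n, (if j.1 = ⟨k, hkn⟩ then ρ else 1) = ρ ^ (C * (k + 1) * 2) := by
    rw [Fintype.prod_sigma]
    rw [Finset.prod_eq_single (⟨k, hkn⟩ : Fin n)]
    · simp
    · intro b _ hb
      simp [hb]
    · intro h; exact absurd (Finset.mem_univ _) h
  rw [h3]
  have h4 : ρ ^ (C * (k + 1) * 2) = (r ^ C) ^ (k + 1) := by
    rw [mul_comm _ 2, pow_mul, hρ, Real.sq_sqrt hr0, pow_mul]
  rw [h4]
  have h5 : (r ^ C) ^ (k + 1) ≤ (1 / 16) ^ (k + 1) := pow_le_pow_left₀ (by positivity) hC.le _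
  refine h5.trans ?_
  have hξ0 : 0 < |ξ| := by linarith
  rw [one_div, inv_pow]
  apply inv_anti₀ (by positivity)
  calc |ξ| ^ 4 ≤ (2 ^ (k + 1)) ^ 4 := pow_le_pow_left₀ hξ0.le hk2.le 4
    _ = (16 : ℝ) ^ (k + 1) := by rw [← pow_mul, mul_comm, pow_mul]; norm_num

end Pool.Agent.helper28.OC
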