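import Pool.Agent.helper28.OC.Base

/-! # Project CV (MP_09b497_an), module B2a: Gaussian Fourier representation -/

open scoped BigOperators

namespace Pool.Agent.helper28.OC

open Finset MeasureTheory

theorem B2a_gauss {h : ℝ} (hh : 0 < h) (u : ℝ) :
    ∫ ξ : ℝ, Complex.exp (Complex.I * ξ * u) * (Real.exp (-(h ^ 2 * ξ ^ 2) / 2) : ℝ) =
      ((Real.sqrt (2 * Real.pi) / h * Real.exp (-u ^ 2 / (2 * h ^ 2)) : ℝ) : ℂ) := by
  have hb : 0 < (((h ^ 2 / 2 : ℝ)) : ℂ).re := by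
    rw [Complex.ofReal_re]; positivity
  have h1 := fourierIntegral_gaussian hb (u : ℂ)
  have h2 : ∀ ξ : ℝ, Complex.exp (Complex.I * (u : ℂ) * ξ) *
      Complex.exp (-((h ^ 2 / 2 : ℝ) : ℂ) * (ξ : ℂ) ^ 2) =
      Complex.exp (Complex.I * ξ * u) * (Real.exp (-(h ^ 2 * ξ ^ 2) / 2) : ℝ) := by
    intro ξ
    rw [Complex.ofReal_exp]
    congr 1
    · congr 1; ring
    · congr 1; push_cast; ring
  simp only [h2] at h1
  rw [h1]
  have h3 : ((Real.pi : ℂ) / ((h ^ 2 / 2 : ℝ) : ℂ)) ^ (1 / 2 : ℂ) =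
      ((Real.sqrt (2 * Real.pi) / h : ℝ) : ℂ) := by
    have e1 : (Real.pi : ℂ) / ((h ^ 2 / 2 : ℝ) : ℂ) = ((Real.pi / (h ^ 2 / 2) : ℝ) : ℂ) := by
      push_cast; rfl
    have e2 : (1 / 2 : ℂ) = ((1 / 2 : ℝ) : ℂ) := by push_cast; rfl
    rw [e1, e2, ← Complex.ofReal_cpow (by positivity), ← Real.sqrt_eq_rpow]
    congr 1
    have e3 : Real.pi / (h ^ 2 / 2) = (2 * Real.pi) / h ^ 2 := by field_simp
    rw [e3, Real.sqrt_div (by positivity), Real.sqrt_sq hh.le]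
  rw [h3]
  push_cast
  congr 2
  field_simp
  ring

theorem B2a_integrable {h : ℝ} (hh : 0 < h) (u : ℝ) :
    Integrable (fun ξ : ℝ => Complex.exp (Complex.I * ξ * u) *
      (Real.exp (-(h ^ 2 * ξ ^ 2) / 2) : ℝ)) := by
  have hb : 0 < (((h ^ 2 / 2 : ℝ)) : ℂ).re := by
    rw [Complex.ofReal_re]; positivity
  have h1 := integrable_cexp_quadratic hb (Complex.I * u) 0
  refine h1.congr (Filter.Eventually.of_forall fun ξ => ?_)
  simp only
  rw [Complex.ofReal_exp, ← Complex.exp_add]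
  congr 1
  push_cast
  ring

/-- module B2a (independent): Gaussian Fourier representation of `dd` -/
theorem B2_repr {p C n : ℕ} [NeZero p] (h : ℝ) (hh : 0 < h) (ψ : AddChar (Om1 p C n) ℂ) (t : ℝ) :
    dd h ψ t = (1 / Real.sqrt (2 * Real.pi) : ℝ) * ∫ ξ : ℝ, Complex.exp (-(Complex.I * ξ * t)) *
      (𝔼 w : Om1 p C n, ψ w * Complex.exp (Complex.I * ξ * A1 w)) *
        (Real.exp (-(h ^ 2 * ξ ^ 2) / 2) : ℝ) := by
  classical
  have hs : (0 : ℝ) < Real.sqrt (2 * Real.pi) := Real.sqrt_pos.2 (by positivity)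
  have h1 : ∀ ξ : ℝ, Complex.exp (-(Complex.I * ξ * t)) *
      (𝔼 w : Om1 p C n, ψ w * Complex.exp (Complex.I * ξ * A1 w)) *
        (Real.exp (-(h ^ 2 * ξ ^ 2) / 2) : ℝ) =
      (∑ w : Om1 p C n, ψ w * (Complex.exp (Complex.I * ξ * ((A1 w - t : ℝ) : ℂ)) *
        (Real.exp (-(h ^ 2 * ξ ^ 2) / 2) : ℝ))) / (Fintype.card (Om1 p C n) : ℂ) := by
    intro ξ
    rw [Fintype.expect_eq_sum_div_card, mul_div_assoc', div_mul_eq_mul_div]
    congr 1
    rw [Finset.mul_sum, Finset.sum_mul]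
    apply Finset.sum_congr rfl
    intro w _
    have h2 : Complex.exp (Complex.I * ξ * ((A1 w - t : ℝ) : ℂ)) =
        Complex.exp (-(Complex.I * ξ * t)) * Complex.exp (Complex.I * ξ * A1 w) := by
      rw [← Complex.exp_add]
      congr 1
      push_cast
      ring
    rw [h2]
    ring
  simp only [h1]
  rw [integral_div, integral_finsetSum _ (fun w _ => (B2a_integrable hh _).const_mul _)]
  simp only [integral_const_mul, B2a_gauss hh]
  unfold dd
  rw [Fintype.expect_eq_sum_div_card, div_right_comm, mul_div_assoc']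
  congr 1
  rw [Finset.sum_div, Finset.mul_sum]
  apply Finset.sum_congr rfl
  intro w _
  push_cast
  have hs' : ((Real.sqrt (2 * Real.pi) : ℝ) : ℂ) ≠ 0 := by exact_mod_cast hs.ne'
  have hh' : (h : ℂ) ≠ 0 := by exact_mod_cast hh.ne'
  field_simp

end Pool.Agent.helper28.OC
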